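import Pool.Agent.Q275.Cheb.Curve

/-!
# Maximal Chebyshev hyperelliptic curves in characteristic one modulo four

If `ℓ ≠ p` are primes congruent to `1` modulo `4` and the curve `y ^ 2 = φ_ℓ(x)` is maximal over
some finite field of characteristic `p`, then `p` is a primitive root modulo `ℓ`.
-/

set_option autoImplicit false

namespace Pool.Agent.Results.MP_a01b15_nt.PrimitiveRoot

open Pool.Agent.Q275.Cheb

theorem result (ℓ p : ℕ) (hℓ : ℓ.Prime) (hp : p.Prime) (hne : ℓ ≠ p) (hℓ4 : ℓ % 4 = 1)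
    (hp4 : p % 4 = 1) (hmax : MaximalInChar ℓ p) : orderOf (p : ZMod ℓ) = ℓ - 1 := by
  have : Fact ℓ.Prime := ⟨hℓ⟩
  have hℓ5 : 5 ≤ ℓ := by
    have := hℓ.two_le
    omega
  have hodd : Odd ℓ := Nat.odd_iff.2 (by omega)
  have hbal := bal_of_maximalInChar hp hp4 hodd (by omega) hmax
  by_contra hord
  -- `p` is a unit
  have hp0 : (p : ZMod ℓ) ≠ 0 := by
    rw [Ne, ZMod.natCast_eq_zero_iff]
    intro h
    exact hne ((Nat.prime_dvd_prime_iff_eq hℓ hp).1 h)
  obtain ⟨g, hg⟩ := exists_gen (E := ZMod ℓ)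
  obtain ⟨k, hk⟩ := gen_pow hg (Units.mk0 (p : ZMod ℓ) hp0)
  have hgo : orderOf g = ℓ - 1 := by
    rw [orderOf_eq_card_of_forall_mem_zpowers hg, Nat.card_eq_fintype_card, ZMod.card_units]
  have hpo : orderOf (p : ZMod ℓ) = (ℓ - 1) / Nat.gcd (ℓ - 1) k := by
    have h1 : orderOf (Units.mk0 (p : ZMod ℓ) hp0) = orderOf (p : ZMod ℓ) := by
      rw [← orderOf_units, Units.val_mk0]
    rw [← h1, ← hk, orderOf_pow, hgo]
  have hgcd : Nat.gcd (ℓ - 1) k ≠ 1 := by
    intro h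
    rw [h, Nat.div_one] at hpo
    exact hord hpo
  obtain ⟨r, hr, hrd⟩ := Nat.exists_prime_and_dvd hgcd
  have hrℓ : r ∣ ℓ - 1 := hrd.trans (Nat.gcd_dvd_left _ _)
  have hrk : r ∣ k := hrd.trans (Nat.gcd_dvd_right _ _)
  obtain ⟨η, hη⟩ := exists_order (F := ZMod ℓ) (N := r) (by rw [ZMod.card]; exact hrℓ) hr.ne_zero
  have hηpow : ∀ u : (ZMod ℓ)ˣ, η (u : ZMod ℓ) ^ r = 1 := fun u => pow_order hη u
  refine no_even (by omega) hodd hp4 hbal η ?_ ?_ ?_
  · have h1 : η (-1 : ZMod ℓ) ^ r = 1 := by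
      have := hηpow (-1)
      rwa [Units.val_neg, Units.val_one] at this
    rcases hr.eq_two_or_odd with h2 | h2
    · obtain ⟨s, hs⟩ := (ZMod.exists_sq_eq_neg_one_iff (p := ℓ)).2 (by omega)
      have hs0 : s ≠ 0 := by
        rintro rfl
        rw [mul_zero] at hs
        exact neg_ne_zero.2 one_ne_zero hs
      have h3 := hηpow (Units.mk0 s hs0)
      rw [h2, Units.val_mk0] at h3
      rw [hs, map_mul, ← pow_two, h3]
    · obtain ⟨m, hm⟩ := Nat.odd_iff.2 h2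
      have h3 : η (-1 : ZMod ℓ) * η (-1 : ZMod ℓ) = 1 := by
        rw [← map_mul]; simp
      rw [hm, pow_succ, pow_mul, pow_two, h3, one_pow, one_mul] at h1
      exact h1
  · have h1 : (p : ZMod ℓ) = (g : ZMod ℓ) ^ k := by
      rw [← Units.val_pow_eq_pow_val, hk, Units.val_mk0]
    obtain ⟨m, rfl⟩ := hrk
    rw [h1, map_pow, pow_mul, hηpow g, one_pow]
  · intro h
    rw [h, orderOf_one] at hη
    exact hr.one_lt.ne hη

end Pool.Agent.Results.MP_a01b15_nt.PrimitiveRoot
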